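import Pool.Agent.Lib.MP_4952d6_mp.Pd.D08

/-!
# Pt.T01: averages over windows (Fubini)

`∫ ‖∫ φ(x + y(b)) dν(b)‖² dx = ∫∫ Re ∫ conj φ(x) φ(x + y(b') - y(b)) dx dν(b) dν(b')` on the torus, one particle displaced.
-/

set_option autoImplicit false
set_option linter.unusedSectionVars false
set_option linter.unusedVariables false
open MeasureTheory Function Filter Topology Set ComplexConjugate
open scoped ENNReal

namespace Pool.Agent.Lib.MP_4952d6_mp.LW

open O

variable {N : ℕ} {L : ℝ}

lemma dsp_continuous (L : ℝ) (i : Fin N) : Continuous fun u : Fin 3 → ℝ => dsp L i u := by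
  unfold dsp
  refine continuous_pi fun j => ?_
  by_cases h : j = i
  · subst h
    simp only [Pi.single_eq_same]
    exact continuous_pi fun α => (AddCircle.continuous_mk' (1:ℝ)).comp (by fun_prop)
  · simp only [Pi.single_eq_of_ne h]
    exact continuous_const

lemma dsp_add (L : ℝ) (i : Fin N) (u w : Fin 3 → ℝ) : dsp L i (u + w) = dsp L i u + dsp L i w := by
  unfold dsp
  rw [← Pi.single_add]
  congr 1
  funext α
  rw [Pi.add_apply, Pi.add_apply, add_div, AddCircle.coe_add]

lemma dsp_measurable (L : ℝ) (i : Fin N) : Measurable fun u : Fin 3 → ℝ => dsp L i u := by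
  have := borel_config (Fin N)
  exact (dsp_continuous L i).measurable

lemma shift_qmp {β : Type*} [MeasurableSpace β] {g : β → Fin 3 → ℝ} (hg : Measurable g) (i : Fin N)
    (ν : Measure β) [SFinite ν] :
    Measure.QuasiMeasurePreserving (fun p : (Fin N → T3) × β => p.1 + dsp L i (g p.2))
      ((piN (Fin N)).prod ν) (piN (Fin N)) := by
  have := borel_config (Fin N)
  refine QuasiMeasurePreserving.prod_of_left ?_ (Eventually.of_forall fun b =>
    (mp_add (dsp L i (g b))).quasiMeasurePreserving)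
  exact measurable_fst.add ((dsp_measurable L i).comp (hg.comp measurable_snd))

lemma shift_sq_integrable {φ : (Fin N → T3) → ℂ} (hφ : MemLp φ 2 (piN (Fin N))) {β : Type*}
    [MeasurableSpace β] {g : β → Fin 3 → ℝ} (hg : Measurable g) (i : Fin N) (ν : Measure β)
    [IsFiniteMeasure ν] :
    Integrable (fun p : (Fin N → T3) × β => ‖φ (p.1 + dsp L i (g p.2))‖ ^ 2)
      ((piN (Fin N)).prod ν) := by
  have h1 : Integrable (fun x => ‖φ x‖ ^ 2) (piN (Fin N)) :=
    (memLp_two_iff_integrable_sq_norm hφ.1).1 hφ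
  have hm : AEStronglyMeasurable (fun p : (Fin N → T3) × β => ‖φ (p.1 + dsp L i (g p.2))‖ ^ 2)
      ((piN (Fin N)).prod ν) :=
    (hφ.1.comp_quasiMeasurePreserving (shift_qmp (L := L) hg i ν)).norm.pow 2
  refine (integrable_prod_iff' hm).2 ⟨Eventually.of_forall fun b => ?_, ?_⟩
  · exact (mp_add (dsp L i (g b))).integrable_comp_of_integrable h1
  · have e : (fun b : β => ∫ x, ‖‖φ (x + dsp L i (g b))‖ ^ 2‖ ∂(piN (Fin N)))
        = fun _ => ∫ x, ‖φ x‖ ^ 2 ∂(piN (Fin N)) := by
      funext b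
      have := borel_config (Fin N)
      have := piN_haar (Fin N)
      have h2 : ∀ x : Fin N → T3, ‖‖φ (x + dsp L i (g b))‖ ^ 2‖ = ‖φ (x + dsp L i (g b))‖ ^ 2 :=
        fun x => by rw [Real.norm_of_nonneg (sq_nonneg _)]
      rw [integral_congr_ae (Eventually.of_forall h2)]
      exact integral_add_right_eq_self (μ := piN (Fin N)) (fun x => ‖φ x‖ ^ 2) (dsp L i (g b))
    rw [e]
    exact integrable_const _

lemma shift_integrable {φ : (Fin N → T3) → ℂ} (hφ : MemLp φ 2 (piN (Fin N))) {β : Type*}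
    [MeasurableSpace β] {g g' : β → Fin 3 → ℝ} (hg : Measurable g) (hg' : Measurable g') (i : Fin N)
    (ν : Measure β) [IsFiniteMeasure ν] :
    Integrable (fun p : (Fin N → T3) × β =>
      conj (φ (p.1 + dsp L i (g p.2))) * φ (p.1 + dsp L i (g' p.2))) ((piN (Fin N)).prod ν) := by
  have h1 := shift_sq_integrable (L := L) hφ hg i ν
  have h2 := shift_sq_integrable (L := L) hφ hg' i ν
  refine (h1.add h2).mono' ?_ (Eventually.of_forall fun p => ?_)
  · exact (Complex.continuous_conj.comp_aestronglyMeasurable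
      (hφ.1.comp_quasiMeasurePreserving (shift_qmp (L := L) hg i ν))).mul
      (hφ.1.comp_quasiMeasurePreserving (shift_qmp (L := L) hg' i ν))
  · rw [norm_mul, RCLike.norm_conj, Pi.add_apply]
    have h3 := sq_nonneg (‖φ (p.1 + dsp L i (g p.2))‖ - ‖φ (p.1 + dsp L i (g' p.2))‖)
    have h4 := sq_nonneg (‖φ (p.1 + dsp L i (g p.2))‖ + ‖φ (p.1 + dsp L i (g' p.2))‖)
    nlinarith

/-- The correlation of `φ` with a displaced copy. -/
noncomputable def corr (L : ℝ) (i : Fin N) (φ : (Fin N → T3) → ℂ) (y : Fin 3 → ℝ) : ℝ :=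
  (∫ x, conj (φ x) * φ (x + dsp L i y) ∂(piN (Fin N))).re

lemma corr_shift (i : Fin N) (φ : (Fin N → T3) → ℂ) (y y' : Fin 3 → ℝ) :
    (∫ x, conj (φ (x + dsp L i y)) * φ (x + dsp L i y') ∂(piN (Fin N))).re
      = corr L i φ (y' - y) := by
  have := borel_config (Fin N)
  have := piN_haar (Fin N)
  have e : ∀ x : Fin N → T3, conj (φ (x + dsp L i y)) * φ (x + dsp L i y')
      = conj (φ (x + dsp L i y)) * φ (x + dsp L i y + dsp L i (y' - y)) := by
    intro x
    have h : dsp L i y' = dsp L i y + dsp L i (y' - y) := by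
      rw [← dsp_add, add_sub_cancel]
    rw [h, ← add_assoc]
  unfold corr
  rw [integral_congr_ae (Eventually.of_forall e)]
  exact congrArg Complex.re (integral_add_right_eq_self (μ := piN (Fin N))
    (fun x => conj (φ x) * φ (x + dsp L i (y' - y))) (dsp L i y))

lemma corr_integrable {φ : (Fin N → T3) → ℂ} (hφ : MemLp φ 2 (piN (Fin N))) {β : Type*}
    [MeasurableSpace β] {g g' : β → Fin 3 → ℝ} (hg : Measurable g) (hg' : Measurable g') (i : Fin N)
    (ν : Measure β) [IsFiniteMeasure ν] :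
    Integrable (fun b => corr L i φ (g' b - g b)) ν := by
  have h := (shift_integrable (L := L) hφ hg hg' i ν).integral_prod_right
  have h2 := h.re
  refine h2.congr (Eventually.of_forall fun b => ?_)
  exact corr_shift i φ (g b) (g' b)

/-- **Fubini for the average over a window.** -/
theorem win_fubini {φ : (Fin N → T3) → ℂ} (hφ : MemLp φ 2 (piN (Fin N))) {β : Type*}
    [MeasurableSpace β] {g : β → Fin 3 → ℝ} (hg : Measurable g) (i : Fin N) (ν : Measure β)
    [IsFiniteMeasure ν] :
    ∫ x, ‖∫ b, φ (x + dsp L i (g b)) ∂ν‖ ^ 2 ∂(piN (Fin N))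
      = ∫ p : β × β, corr L i φ (g p.2 - g p.1) ∂(ν.prod ν) := by
  have hI := shift_integrable (L := L) hφ (g := fun p : β × β => g p.1) (g' := fun p => g p.2)
    (hg.comp measurable_fst) (hg.comp measurable_snd) i (ν.prod ν)
  have h1 : ∀ x : Fin N → T3, ∫ p : β × β, conj (φ (x + dsp L i (g p.1))) * φ (x + dsp L i (g p.2))
      ∂(ν.prod ν) = ((‖∫ b, φ (x + dsp L i (g b)) ∂ν‖ ^ 2 : ℝ) : ℂ) := by
    intro x
    rw [integral_prod_mul (fun b => conj (φ (x + dsp L i (g b)))) (fun b => φ (x + dsp L i (g b))),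
      integral_conj, mul_comm, Complex.mul_conj, Complex.normSq_eq_norm_sq]
  have h2 := integral_integral_swap
    (f := fun (x : Fin N → T3) (p : β × β) =>
      conj (φ (x + dsp L i (g p.1))) * φ (x + dsp L i (g p.2))) hI
  rw [integral_congr_ae (Eventually.of_forall h1), integral_complex_ofReal] at h2
  have h3 := congrArg Complex.re h2
  rw [Complex.ofReal_re] at h3
  rw [h3]
  have h4 := integral_re hI.integral_prod_right
  simp only [RCLike.re_eq_complex_re] at h4
  rw [← h4]
  refine integral_congr_ae (Eventually.of_forall fun p => ?_)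
  exact corr_shift i φ (g p.1) (g p.2)

/-- The average over a window, in the box. -/
theorem win_box (hL : 0 < L) {ψ : (Fin N → Fin 3 → ℝ) → ℂ}
    (hψ : MemLp ψ 2 (volume.restrict (box N L))) {β : Type*}
    [MeasurableSpace β] {g : β → Fin 3 → ℝ} (hg : Measurable g) (i : Fin N) (ν : Measure β)
    [IsFiniteMeasure ν] :
    ∫ x in box N L, ‖∫ b, ψ (displace L i (g b) x) ∂ν‖ ^ 2
      = ∫ z, ‖∫ b, TT N L ψ (z + dsp L i (g b)) ∂ν‖ ^ 2 ∂(piN (Fin N)) := by
  have hm : AEStronglyMeasurable ψ (PB N L) := hψ.1.mono_ac (PB_ac N L)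
  have hsf : SFinite (PB N L) := by
    unfold PB
    infer_instance
  have hq1 : MeasurePreserving (Prod.map (toT N L) (id : β → β)) ((PB N L).prod ν)
      ((piN (Fin N)).prod ν) := (mp_toT hL).prod (MeasurePreserving.id ν)
  have hq : Measure.QuasiMeasurePreserving
      (fun p : (Fin N → Fin 3 → ℝ) × β => toB N L (toT N L p.1 + dsp L i (g p.2)))
      ((PB N L).prod ν) (PB N L) :=
    ((mp_toB hL).quasiMeasurePreserving.comp (shift_qmp (L := L) hg i ν)).comp
      hq1.quasiMeasurePreserving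
  have h1 : AEStronglyMeasurable
      (fun p : (Fin N → Fin 3 → ℝ) × β => ψ (toB N L (toT N L p.1 + dsp L i (g p.2))))
      ((PB N L).prod ν) := hm.comp_quasiMeasurePreserving hq
  have h3 : ∀ᵐ x ∂(PB N L), x ∈ box N L :=
    (PB_ac N L).ae_le (ae_restrict_mem (measurableSet_box N L))
  have h4 : AEStronglyMeasurable (fun x => ∫ b, ψ (displace L i (g b) x) ∂ν) (PB N L) := by
    refine (h1.integral_prod_right' (f := fun p : (Fin N → Fin 3 → ℝ) × β =>
      ψ (toB N L (toT N L p.1 + dsp L i (g p.2))))).congr ?_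
    filter_upwards [h3] with x hx
    refine integral_congr_ae (Eventually.of_forall fun b => ?_)
    dsimp only
    rw [← displace_toB hL, toB_toT hL hx]
  rw [setIntegral_box hL (F := fun x => ‖∫ b, ψ (displace L i (g b) x) ∂ν‖ ^ 2) (h4.norm.pow 2),
    smul_eq_mul, ← integral_const_mul]
  refine integral_congr_ae (Eventually.of_forall fun z => ?_)
  dsimp only
  have e : ∀ b : β, ψ (displace L i (g b) (toB N L z)) = ψ (toB N L (z + dsp L i (g b))) :=
    fun b => by rw [displace_toB hL]
  have e2 : ∫ b, TT N L ψ (z + dsp L i (g b)) ∂ν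
      = ((Real.sqrt (L ^ (3 * N)) : ℝ) : ℂ) * ∫ b, ψ (toB N L (z + dsp L i (g b))) ∂ν := by
    simp only [TT]
    rw [integral_const_mul]
  rw [e2, norm_mul, mul_pow, Complex.norm_real, Real.norm_eq_abs, sq_abs,
    Real.sq_sqrt (by positivity), integral_congr_ae (Eventually.of_forall e)]

end Pool.Agent.Lib.MP_4952d6_mp.LW
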