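import Pool.Agent.Lib.MP_4952d6_mp.Pt.T01

/-!
# Pt.T02: the local condensate fraction

`localFraction N L l ψ`: average over all windows (cubes of side `l`) of the torus of the number of particles in the
constant state of the window, over the average number of particles in a window. In terms of the density matrix `γ`:
the average of `γ (l (u' - u))` over `u, u'` in the unit cube.
-/

set_option autoImplicit false
set_option linter.unusedSectionVars false
set_option linter.unusedVariables false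
open MeasureTheory Function Filter Topology Set ComplexConjugate
open scoped ENNReal Pointwise

namespace Pool.Agent.Lib.MP_4952d6_mp.LW

open O

variable {N : ℕ} {L : ℝ}

/-- The cube `[0, l)³`. -/
def win (l : ℝ) : Set (Fin 3 → ℝ) := {u | ∀ α, 0 ≤ u α ∧ u α < l}

/-- Local condensate fraction. -/
noncomputable def localFraction (N : ℕ) (L l : ℝ) (ψ : (Fin N → Fin 3 → ℝ) → ℂ) : ℝ :=
  (1 / (N * l ^ 6)) * ∑ i : Fin N, ∫ x in box N L, ‖∫ u in win l, ψ (displace L i u x)‖ ^ 2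

/-- Lebesgue measure on the unit cube. -/
noncomputable def mu1 : Measure (Fin 3 → ℝ) := volume.restrict (win 1)

lemma win_eq (l : ℝ) : win l = Set.pi univ (fun _ : Fin 3 => Ico (0:ℝ) l) := by
  ext x
  simp [win, Set.mem_pi]

lemma win_smul {l : ℝ} (hl : 0 < l) : l • win 1 = win l := by
  ext u
  rw [Set.mem_smul_set_iff_inv_smul_mem₀ hl.ne']
  simp only [win, Set.mem_ofPred_eq, Pi.smul_apply, smul_eq_mul]
  refine forall_congr' fun α => ?_
  rw [inv_mul_eq_div, div_lt_one hl]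
  constructor
  · rintro ⟨h1, h2⟩
    refine ⟨?_, h2⟩
    by_contra h
    exact absurd h1 (not_le.2 (div_neg_of_neg_of_pos (not_le.1 h) hl))
  · rintro ⟨h1, h2⟩
    exact ⟨div_nonneg h1 hl.le, h2⟩

lemma mu1_eq : mu1 = Measure.pi fun _ : Fin 3 => (volume : Measure ℝ).restrict (Ico (0:ℝ) 1) := by
  unfold mu1
  rw [win_eq]
  have h2 : (volume : Measure (Fin 3 → ℝ)) = Measure.pi fun _ => volume := rfl
  rw [h2, Measure.restrict_pi_pi]

instance mu1_prob : IsProbabilityMeasure mu1 := by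
  rw [mu1_eq]
  have : IsProbabilityMeasure ((volume : Measure ℝ).restrict (Ico (0:ℝ) 1)) := ⟨by simp⟩
  infer_instance

lemma win_scale {l : ℝ} (hl : 0 < l) (f : (Fin 3 → ℝ) → ℂ) :
    ∫ u in win l, f u = (l : ℂ) ^ 3 * ∫ u, f (l • u) ∂mu1 := by
  have h := Measure.setIntegral_comp_smul_of_pos (volume : Measure (Fin 3 → ℝ)) f (win 1) hl
  rw [win_smul hl] at h
  have h3 : Module.finrank ℝ (Fin 3 → ℝ) = 3 := by simp
  rw [h3] at h
  unfold mu1
  rw [h, Complex.real_smul]
  push_cast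
  rw [← mul_assoc, mul_inv_cancel₀ (by
    have : (l : ℂ) ≠ 0 := by exact_mod_cast hl.ne'
    exact pow_ne_zero 3 this), one_mul]

lemma smul_measurable (l : ℝ) : Measurable fun u : Fin 3 → ℝ => l • u := measurable_const_smul l

lemma corr_TT (hL : 0 < L) {ψ : (Fin N → Fin 3 → ℝ) → ℂ}
    (hψ : MemLp ψ 2 (volume.restrict (box N L))) (i : Fin N) (y : Fin 3 → ℝ) :
    corr L i (TT N L ψ) y = (∫ x in box N L, conj (ψ x) * ψ (displace L i y x)).re := by
  unfold corr
  rw [box_integral hL i y hψ]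

lemma localFraction_corr (hN : 1 ≤ N) (hL : 0 < L) {l : ℝ} (hl : 0 < l)
    {ψ : (Fin N → Fin 3 → ℝ) → ℂ} (hψ : MemLp ψ 2 (volume.restrict (box N L))) :
    localFraction N L l ψ
      = (1 / (N : ℝ)) * ∑ i : Fin N, ∫ p, corr L i (TT N L ψ) (l • p.2 - l • p.1) ∂(mu1.prod mu1) := by
  have hN0 : (N : ℝ) ≠ 0 := by
    have : (1:ℝ) ≤ N := by exact_mod_cast hN
    linarith
  have h1 : ∀ i : Fin N, ∫ x in box N L, ‖∫ u in win l, ψ (displace L i u x)‖ ^ 2
      = l ^ 6 * ∫ p, corr L i (TT N L ψ) (l • p.2 - l • p.1) ∂(mu1.prod mu1) := by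
    intro i
    rw [← win_fubini (memLp_TT hL hψ) (smul_measurable l) i mu1,
      ← win_box hL hψ (smul_measurable l) i mu1, ← integral_const_mul]
    refine integral_congr_ae (Eventually.of_forall fun x => ?_)
    dsimp only
    rw [win_scale hl, norm_mul, mul_pow, norm_pow, Complex.norm_real, Real.norm_of_nonneg hl.le]
    ring
  unfold localFraction
  rw [Finset.sum_congr rfl fun i _ => h1 i, ← Finset.mul_sum]
  have hl6 : l ^ 6 ≠ 0 := by positivity
  field_simp

lemma gamma_integrable (hL : 0 < L) {l : ℝ} {ψ : (Fin N → Fin 3 → ℝ) → ℂ}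
    (hψ : MemLp ψ 2 (volume.restrict (box N L))) :
    Integrable (fun p : (Fin 3 → ℝ) × (Fin 3 → ℝ) => densityMatrix N L ψ (l • p.2 - l • p.1))
      (mu1.prod mu1) := by
  unfold densityMatrix
  refine Integrable.const_mul (integrable_finsetSum _ fun i _ => ?_) _
  refine (corr_integrable (L := L) (memLp_TT hL hψ) (g := fun p : (Fin 3 → ℝ) × (Fin 3 → ℝ) => l • p.1)
    (g' := fun p => l • p.2) ((smul_measurable l).comp measurable_fst)
    ((smul_measurable l).comp measurable_snd) i (mu1.prod mu1)).congr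
    (Eventually.of_forall fun p => ?_)
  exact corr_TT hL hψ i _

/-- **The local condensate fraction is the average of the density matrix over the window.** -/
theorem localFraction_gamma (hN : 1 ≤ N) (hL : 0 < L) {l : ℝ} (hl : 0 < l)
    {ψ : (Fin N → Fin 3 → ℝ) → ℂ} (hψ : MemLp ψ 2 (volume.restrict (box N L))) :
    localFraction N L l ψ
      = ∫ p, densityMatrix N L ψ (l • p.2 - l • p.1) ∂(mu1.prod mu1) := by
  rw [localFraction_corr hN hL hl hψ]
  unfold densityMatrix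
  rw [integral_const_mul, integral_finsetSum]
  · congr 1
    refine Finset.sum_congr rfl fun i _ => integral_congr_ae (Eventually.of_forall fun p => ?_)
    exact corr_TT hL hψ i _
  · intro i _
    refine (corr_integrable (L := L) (memLp_TT hL hψ) (g := fun p : (Fin 3 → ℝ) × (Fin 3 → ℝ) => l • p.1)
      (g' := fun p => l • p.2) ((smul_measurable l).comp measurable_fst)
      ((smul_measurable l).comp measurable_snd) i (mu1.prod mu1)).congr
      (Eventually.of_forall fun p => ?_)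
    exact corr_TT hL hψ i _

/-! ### The kernel -/

/-- `∫ exp (i θ·u) du` over the unit cube. -/
noncomputable def ek (θ : Fin 3 → ℝ) : ℂ := ∫ u, Complex.exp (((∑ α, θ α * u α : ℝ) : ℂ) * Complex.I) ∂mu1

lemma ek_cos (θ : Fin 3 → ℝ) : ∫ p : (Fin 3 → ℝ) × (Fin 3 → ℝ), Real.cos (∑ α, θ α * (p.2 α - p.1 α)) ∂(mu1.prod mu1) = ‖ek θ‖ ^ 2 := by
  have h1 := integral_prod_mul (μ := mu1) (ν := mu1)
    (fun u : Fin 3 → ℝ => conj (Complex.exp (((∑ α, θ α * u α : ℝ) : ℂ) * Complex.I)))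
    (fun u : Fin 3 → ℝ => Complex.exp (((∑ α, θ α * u α : ℝ) : ℂ) * Complex.I))
  rw [integral_conj] at h1
  have h2 : (∫ p : (Fin 3 → ℝ) × (Fin 3 → ℝ),
      conj (Complex.exp (((∑ α, θ α * p.1 α : ℝ) : ℂ) * Complex.I))
        * Complex.exp (((∑ α, θ α * p.2 α : ℝ) : ℂ) * Complex.I) ∂(mu1.prod mu1)).re = ‖ek θ‖ ^ 2 := by
    rw [h1, mul_comm, Complex.mul_conj, Complex.normSq_eq_norm_sq, Complex.ofReal_re]
    rfl
  rw [← h2]
  have hi : Integrable (fun p : (Fin 3 → ℝ) × (Fin 3 → ℝ) =>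
      conj (Complex.exp (((∑ α, θ α * p.1 α : ℝ) : ℂ) * Complex.I))
        * Complex.exp (((∑ α, θ α * p.2 α : ℝ) : ℂ) * Complex.I)) (mu1.prod mu1) := by
    refine (integrable_const (1:ℝ)).mono' ?_ (Eventually.of_forall fun p => ?_)
    · exact Continuous.aestronglyMeasurable (by fun_prop)
    · rw [norm_mul, RCLike.norm_conj, Complex.norm_exp_ofReal_mul_I, Complex.norm_exp_ofReal_mul_I,
        mul_one]
  have h3 := integral_re hi
  simp only [RCLike.re_eq_complex_re] at h3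
  rw [← h3]
  refine integral_congr_ae (Eventually.of_forall fun p => ?_)
  dsimp only
  rw [← Complex.exp_conj, map_mul, Complex.conj_ofReal, Complex.conj_I, ← Complex.exp_add]
  have e : ((∑ α, θ α * p.1 α : ℝ) : ℂ) * -Complex.I + ((∑ α, θ α * p.2 α : ℝ) : ℂ) * Complex.I
      = ((∑ α, θ α * (p.2 α - p.1 α) : ℝ) : ℂ) * Complex.I := by
    have e1 : ∑ α, θ α * (p.2 α - p.1 α) = ∑ α, θ α * p.2 α - ∑ α, θ α * p.1 α := by
      rw [← Finset.sum_sub_distrib]
      exact Finset.sum_congr rfl fun α _ => by ring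
    rw [e1]
    push_cast
    ring
  rw [e, Complex.exp_ofReal_mul_I_re]

lemma ek_prod (θ : Fin 3 → ℝ) :
    ek θ = ∏ α, ∫ t in Ico (0:ℝ) 1, Complex.exp (((θ α * t : ℝ) : ℂ) * Complex.I) := by
  unfold ek
  rw [mu1_eq, ← integral_fintype_prod_eq_prod]
  refine integral_congr_ae (Eventually.of_forall fun u => ?_)
  dsimp only
  rw [← Complex.exp_sum]
  congr 1
  push_cast
  rw [Finset.sum_mul]

lemma e1_integral {t : ℝ} (ht : t ≠ 0) :
    ∫ s in Ico (0:ℝ) 1, Complex.exp (((t * s : ℝ) : ℂ) * Complex.I)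
      = (Complex.exp ((t : ℂ) * Complex.I) - 1) / ((t : ℂ) * Complex.I) := by
  have hc : (t : ℂ) * Complex.I ≠ 0 := mul_ne_zero (by exact_mod_cast ht) Complex.I_ne_zero
  rw [integral_Ico_eq_integral_Ioc, ← intervalIntegral.integral_of_le zero_le_one]
  have h := integral_exp_mul_complex (a := (0:ℝ)) (b := 1) hc
  have e : ∀ s : ℝ, Complex.exp (((t * s : ℝ) : ℂ) * Complex.I)
      = Complex.exp ((t : ℂ) * Complex.I * s) := by
    intro s
    congr 1
    push_cast
    ring
  simp_rw [e]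
  rw [h]
  simp

lemma e1_norm_le_one (t : ℝ) :
    ‖∫ s in Ico (0:ℝ) 1, Complex.exp (((t * s : ℝ) : ℂ) * Complex.I)‖ ≤ 1 := by
  have h := norm_setIntegral_le_of_norm_le_const (μ := volume) (s := Ico (0:ℝ) 1)
    (f := fun s : ℝ => Complex.exp (((t * s : ℝ) : ℂ) * Complex.I)) (C := 1) (by simp)
    (fun s _ => by rw [Complex.norm_exp_ofReal_mul_I])
  simpa using h

lemma e1_norm_le {t : ℝ} (ht : t ≠ 0) :
    ‖∫ s in Ico (0:ℝ) 1, Complex.exp (((t * s : ℝ) : ℂ) * Complex.I)‖ ≤ 2 / |t| := by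
  rw [e1_integral ht, norm_div, norm_mul, Complex.norm_I, mul_one, Complex.norm_real,
    Real.norm_eq_abs]
  refine div_le_div_of_nonneg_right ?_ (abs_nonneg _)
  refine (norm_sub_le _ _).trans ?_
  rw [Complex.norm_exp_ofReal_mul_I, norm_one]
  norm_num

lemma ek_zero : ek 0 = 1 := by
  unfold ek
  simp

lemma ek_norm_le_one (θ : Fin 3 → ℝ) : ‖ek θ‖ ≤ 1 := by
  rw [ek_prod, norm_prod]
  exact Finset.prod_le_one (fun α _ => norm_nonneg _) fun α _ => e1_norm_le_one _

lemma ek_norm_le (θ : Fin 3 → ℝ) {α : Fin 3} (h : θ α ≠ 0) : ‖ek θ‖ ≤ 2 / |θ α| := by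
  rw [ek_prod, norm_prod, ← Finset.mul_prod_erase Finset.univ _ (Finset.mem_univ α)]
  calc _ ≤ 2 / |θ α| * 1 := mul_le_mul (e1_norm_le h)
        (Finset.prod_le_one (fun β _ => norm_nonneg _) fun β _ => e1_norm_le_one _)
        (Finset.prod_nonneg fun β _ => norm_nonneg _) (by positivity)
    _ = _ := mul_one _

/-- The kernel is small at high momenta. -/
lemma ek_sq_le (θ : Fin 3 → ℝ) {q : ℝ} (hq : 0 < q) (h : q ^ 2 ≤ ∑ α, θ α ^ 2) :
    ‖ek θ‖ ^ 2 ≤ 12 / q ^ 2 := by
  obtain ⟨α, hα⟩ : ∃ α, q ^ 2 / 3 ≤ θ α ^ 2 := by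
    by_contra hc
    push Not at hc
    have h1 : ∑ α, θ α ^ 2 < ∑ _α : Fin 3, q ^ 2 / 3 :=
      Finset.sum_lt_sum_of_nonempty Finset.univ_nonempty fun α _ => hc α
    simp at h1
    linarith
  have hθ : θ α ≠ 0 := fun h0 => by
    rw [h0] at hα
    have : 0 < q ^ 2 / 3 := by positivity
    simp at hα
    linarith
  have h1 := ek_norm_le θ hθ
  have h2 : ‖ek θ‖ ^ 2 ≤ (2 / |θ α|) ^ 2 := pow_le_pow_left₀ (norm_nonneg _) h1 2
  refine h2.trans ?_
  rw [div_pow, sq_abs, div_le_div_iff₀ (by positivity) (by positivity)]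
  linarith

lemma ek_two_pi (k : Fin 3 → ℤ) : ek (fun α => 2 * Real.pi * (k α : ℝ)) = if k = 0 then 1 else 0 := by
  split_ifs with h
  · subst h
    have e : (fun α : Fin 3 => 2 * Real.pi * (((0 : Fin 3 → ℤ) α : ℤ) : ℝ)) = 0 := by
      funext α
      simp
    rw [e, ek_zero]
  · obtain ⟨α, hα⟩ : ∃ α, k α ≠ 0 := by
      by_contra hc
      push Not at hc
      exact h (funext hc)
    rw [ek_prod]
    refine Finset.prod_eq_zero (Finset.mem_univ α) ?_
    have hk : 2 * Real.pi * (k α : ℝ) ≠ 0 := by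
      have := Real.pi_ne_zero
      have h2 : (k α : ℝ) ≠ 0 := by exact_mod_cast hα
      positivity
    rw [e1_integral hk]
    have e : ((2 * Real.pi * (k α : ℝ) : ℝ) : ℂ) * Complex.I
        = (k α : ℂ) * (2 * Real.pi * Complex.I) := by
      push_cast
      ring
    rw [e, Complex.exp_int_mul_two_pi_mul_I, sub_self, zero_div]

end Pool.Agent.Lib.MP_4952d6_mp.LW
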