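import Pool.Agent.Lib.MP_4952d6_mp.Pt.T02

/-!
# Pt.T03: the local condensate fraction in terms of the momenta

`localFraction N L l ψ = (1/N) ∑ᵢ ∑ₖ |e((2πl/L) kᵢ)|² |cₖ|²`; for `l = L` it is the condensate fraction; it is at most
`1 - (1 - 12/(κl)²)` (fraction of the particles with momentum at least `κ`).
-/

set_option autoImplicit false
set_option linter.unusedSectionVars false
set_option linter.unusedVariables false
open MeasureTheory Function Filter Topology Set ComplexConjugate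
open scoped ENNReal

namespace Pool.Agent.Lib.MP_4952d6_mp.LW

open O

variable {N : ℕ} {L : ℝ}

/-- Sum over the momenta and average over the window, for one particle. -/
lemma corr_avg (hL : 0 < L) {φ : (Fin N → T3) → ℂ} (hφ : MemLp φ 2 (piN (Fin N))) (i : Fin N) (l : ℝ) :
    HasSum (fun k : Fin N → Fin 3 → ℤ => ‖ek (fun α => (2 * Real.pi * l / L) * (k i α : ℝ))‖ ^ 2 * ‖fc φ k‖ ^ 2)
      (∫ p, corr L i φ (l • p.2 - l • p.1) ∂(mu1.prod mu1)) := by
  have hs := parseval_sq hφ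
  have hc : ∀ k : Fin N → Fin 3 → ℤ, Continuous fun p : (Fin 3 → ℝ) × (Fin 3 → ℝ) =>
      Real.cos ((2 * Real.pi / L) * ∑ α, (k i α : ℝ) * (l • p.2 - l • p.1) α) * ‖fc φ k‖ ^ 2 := by
    intro k
    have h : Continuous fun p : (Fin 3 → ℝ) × (Fin 3 → ℝ) =>
        ∑ α, (k i α : ℝ) * (l • p.2 - l • p.1) α := by
      refine continuous_finsetSum _ fun α _ => ?_
      simp only [Pi.sub_apply, Pi.smul_apply, smul_eq_mul]
      fun_prop
    exact (Real.continuous_cos.comp (continuous_const.mul h)).mul continuous_const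
  have hb : ∀ (k : Fin N → Fin 3 → ℤ) (p : (Fin 3 → ℝ) × (Fin 3 → ℝ)),
      ‖Real.cos ((2 * Real.pi / L) * ∑ α, (k i α : ℝ) * (l • p.2 - l • p.1) α) * ‖fc φ k‖ ^ 2‖
        ≤ ‖fc φ k‖ ^ 2 := by
    intro k p
    rw [norm_mul, Real.norm_eq_abs, Real.norm_of_nonneg (sq_nonneg _)]
    exact mul_le_of_le_one_left (sq_nonneg _) (Real.abs_cos_le_one _)
  have hi : ∀ k : Fin N → Fin 3 → ℤ, Integrable (fun p : (Fin 3 → ℝ) × (Fin 3 → ℝ) =>
      Real.cos ((2 * Real.pi / L) * ∑ α, (k i α : ℝ) * (l • p.2 - l • p.1) α) * ‖fc φ k‖ ^ 2)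
      (mu1.prod mu1) := fun k =>
    (integrable_const (‖fc φ k‖ ^ 2)).mono' (hc k).aestronglyMeasurable
      (Eventually.of_forall fun p => hb k p)
  have h := hasSum_integral_of_summable_integral_norm hi (by
    refine Summable.of_nonneg_of_le (fun k => integral_nonneg fun p => norm_nonneg _) (fun k => ?_)
      hs.summable
    calc ∫ p, ‖Real.cos ((2 * Real.pi / L) * ∑ α, (k i α : ℝ) * (l • p.2 - l • p.1) α)
          * ‖fc φ k‖ ^ 2‖ ∂(mu1.prod mu1) ≤ ∫ _p, ‖fc φ k‖ ^ 2 ∂(mu1.prod mu1) :=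
        integral_mono (hi k).norm (integrable_const _) fun p => hb k p
      _ = ‖fc φ k‖ ^ 2 := by simp)
  have e1 : ∫ p, ∑' k : Fin N → Fin 3 → ℤ,
      Real.cos ((2 * Real.pi / L) * ∑ α, (k i α : ℝ) * (l • p.2 - l • p.1) α) * ‖fc φ k‖ ^ 2
        ∂(mu1.prod mu1) = ∫ p, corr L i φ (l • p.2 - l • p.1) ∂(mu1.prod mu1) := by
    refine integral_congr_ae (Eventually.of_forall fun p => ?_)
    exact (dsp_hasSum hL i (l • p.2 - l • p.1) hφ).tsum_eq
  rw [e1] at h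
  have e2 : (fun k : Fin N → Fin 3 → ℤ => ∫ p, Real.cos ((2 * Real.pi / L)
      * ∑ α, (k i α : ℝ) * (l • p.2 - l • p.1) α) * ‖fc φ k‖ ^ 2 ∂(mu1.prod mu1))
      = fun k => ‖ek (fun α => (2 * Real.pi * l / L) * (k i α : ℝ))‖ ^ 2 * ‖fc φ k‖ ^ 2 := by
    funext k
    rw [integral_mul_const, ← ek_cos]
    congr 1
    refine integral_congr_ae (Eventually.of_forall fun p => ?_)
    dsimp only
    congr 1
    rw [Finset.mul_sum]
    refine Finset.sum_congr rfl fun α _ => ?_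
    simp only [Pi.sub_apply, Pi.smul_apply, smul_eq_mul]
    ring
  rw [e2] at h
  exact h

/-- **The local condensate fraction in terms of the momenta.** -/
theorem localFraction_fourier (hN : 1 ≤ N) (hL : 0 < L) {l : ℝ} (hl : 0 < l)
    {ψ : (Fin N → Fin 3 → ℝ) → ℂ} (hψ : MemLp ψ 2 (volume.restrict (box N L))) :
    localFraction N L l ψ = (1 / (N : ℝ)) * ∑ i : Fin N, ∑' k : Fin N → Fin 3 → ℤ,
      ‖ek (fun α => (2 * Real.pi * l / L) * (k i α : ℝ))‖ ^ 2 * ‖fourierC N L ψ k‖ ^ 2 := by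
  rw [localFraction_corr hN hL hl hψ]
  congr 1
  refine Finset.sum_congr rfl fun i _ => ?_
  rw [← (corr_avg hL (memLp_TT hL hψ) i l).tsum_eq]
  simp_rw [fourierC_eq hL hψ.1]

/-- **For `l = L` the local condensate fraction is the condensate fraction.** -/
theorem localFraction_self (hN : 1 ≤ N) (hL : 0 < L)
    {ψ : (Fin N → Fin 3 → ℝ) → ℂ} (hψ : MemLp ψ 2 (volume.restrict (box N L))) :
    localFraction N L L ψ = condFraction N L ψ := by
  rw [localFraction_fourier hN hL hL hψ]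
  unfold condFraction
  congr 1
  refine Finset.sum_congr rfl fun i _ => tsum_congr fun k => ?_
  have e : (fun α => (2 * Real.pi * L / L) * (k i α : ℝ)) = fun α => 2 * Real.pi * (k i α : ℝ) := by
    funext α
    rw [mul_div_assoc, div_self hL.ne', mul_one]
  rw [e, ek_two_pi]
  split_ifs <;> simp

/-- A lower bound for the local depletion by the fraction of high momenta. -/
theorem localFraction_low (hN : 1 ≤ N) (hL : 0 < L) {l κ : ℝ} (hl : 0 < l) (hκ : 0 < κ)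
    {ψ : (Fin N → Fin 3 → ℝ) → ℂ} (hψ : MemLp ψ 2 (volume.restrict (box N L)))
    (h1 : ∫ x in box N L, ‖ψ x‖ ^ 2 = 1) :
    (1 - 12 / (κ * l) ^ 2) * momFraction N L κ ψ ≤ 1 - localFraction N L l ψ := by
  have hN0 : (0 : ℝ) < N := by exact_mod_cast hN
  have hφ := memLp_TT hL hψ
  have hs := parseval_sq hφ
  rw [← norm_TT hL hψ.1, h1] at hs
  rw [localFraction_fourier hN hL hl hψ]
  unfold momFraction
  simp_rw [fourierC_eq hL hψ.1]
  have hi : ∀ i : Fin N, (1 - 12 / (κ * l) ^ 2) * ∑' k : Fin N → Fin 3 → ℤ,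
      (if κ ^ 2 ≤ (2 * Real.pi / L) ^ 2 * ∑ α, (k i α : ℝ) ^ 2 then ‖fc (TT N L ψ) k‖ ^ 2 else 0)
      ≤ 1 - ∑' k : Fin N → Fin 3 → ℤ, ‖ek (fun α => (2 * Real.pi * l / L) * (k i α : ℝ))‖ ^ 2
        * ‖fc (TT N L ψ) k‖ ^ 2 := by
    intro i
    have s1 : Summable fun k : Fin N → Fin 3 → ℤ =>
        (if κ ^ 2 ≤ (2 * Real.pi / L) ^ 2 * ∑ α, (k i α : ℝ) ^ 2 then ‖fc (TT N L ψ) k‖ ^ 2 else 0) :=
      Summable.of_nonneg_of_le (fun k => by split_ifs <;> positivity) (fun k => by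
        split_ifs
        · exact le_rfl
        · positivity) hs.summable
    have s2 := (corr_avg hL hφ i l).summable
    have e3 : 1 - ∑' k : Fin N → Fin 3 → ℤ, ‖ek (fun α => (2 * Real.pi * l / L) * (k i α : ℝ))‖ ^ 2
        * ‖fc (TT N L ψ) k‖ ^ 2 = ∑' k : Fin N → Fin 3 → ℤ, (‖fc (TT N L ψ) k‖ ^ 2
        - ‖ek (fun α => (2 * Real.pi * l / L) * (k i α : ℝ))‖ ^ 2 * ‖fc (TT N L ψ) k‖ ^ 2) := by
      rw [hs.summable.tsum_sub s2, hs.tsum_eq]
    rw [e3, ← tsum_mul_left]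
    refine Summable.tsum_le_tsum (fun k => ?_) (s1.mul_left _) (hs.summable.sub s2)
    obtain ⟨c, hc⟩ : ∃ c, c = ‖fc (TT N L ψ) k‖ ^ 2 := ⟨_, rfl⟩
    rw [← hc]
    have hc0 : 0 ≤ c := by rw [hc]; positivity
    have hE := ek_norm_le_one (fun α => (2 * Real.pi * l / L) * (k i α : ℝ))
    obtain ⟨E, hEd⟩ : ∃ E, E = ‖ek (fun α => (2 * Real.pi * l / L) * (k i α : ℝ))‖ ^ 2 := ⟨_, rfl⟩
    have hE1 : E ≤ 1 := by
      rw [hEd]
      exact pow_le_one₀ (norm_nonneg _) hE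
    split_ifs with hk
    · have hq : (κ * l) ^ 2 ≤ ∑ α, ((2 * Real.pi * l / L) * (k i α : ℝ)) ^ 2 := by
        have e : ∑ α, ((2 * Real.pi * l / L) * (k i α : ℝ)) ^ 2
            = l ^ 2 * ((2 * Real.pi / L) ^ 2 * ∑ α, (k i α : ℝ) ^ 2) := by
          rw [← mul_assoc, Finset.mul_sum]
          refine Finset.sum_congr rfl fun α _ => ?_
          ring
        rw [e]
        have := mul_le_mul_of_nonneg_left hk (sq_nonneg l)
        linarith
      have h2 := ek_sq_le (fun α => (2 * Real.pi * l / L) * (k i α : ℝ)) (mul_pos hκ hl) hq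
      rw [← hEd] at h2 ⊢
      have h3 := mul_le_mul_of_nonneg_right h2 hc0
      linarith
    · rw [← hEd, mul_zero]
      have h3 := mul_le_mul_of_nonneg_right hE1 hc0
      linarith
  calc (1 - 12 / (κ * l) ^ 2) * ((1 / (N : ℝ)) * ∑ i : Fin N, ∑' k : Fin N → Fin 3 → ℤ,
        (if κ ^ 2 ≤ (2 * Real.pi / L) ^ 2 * ∑ α, (k i α : ℝ) ^ 2 then ‖fc (TT N L ψ) k‖ ^ 2 else 0))
      = (1 / (N : ℝ)) * ∑ i : Fin N, (1 - 12 / (κ * l) ^ 2) * ∑' k : Fin N → Fin 3 → ℤ,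
        (if κ ^ 2 ≤ (2 * Real.pi / L) ^ 2 * ∑ α, (k i α : ℝ) ^ 2 then ‖fc (TT N L ψ) k‖ ^ 2 else 0) := by
        rw [← Finset.mul_sum]
        ring
    _ ≤ (1 / (N : ℝ)) * ∑ i : Fin N, (1 - ∑' k : Fin N → Fin 3 → ℤ,
        ‖ek (fun α => (2 * Real.pi * l / L) * (k i α : ℝ))‖ ^ 2 * ‖fc (TT N L ψ) k‖ ^ 2) :=
        mul_le_mul_of_nonneg_left (Finset.sum_le_sum fun i _ => hi i) (by positivity)
    _ = _ := by
        rw [Finset.sum_sub_distrib, Finset.sum_const, Finset.card_univ, Fintype.card_fin, nsmul_eq_mul,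
          mul_one]
        field_simp

/-- The local condensate fraction is between `0` and `1`. -/
theorem localFraction_bd (hN : 1 ≤ N) (hL : 0 < L) {l : ℝ} (hl : 0 < l)
    {ψ : (Fin N → Fin 3 → ℝ) → ℂ} (hψ : MemLp ψ 2 (volume.restrict (box N L)))
    (h1 : ∫ x in box N L, ‖ψ x‖ ^ 2 = 1) :
    0 ≤ localFraction N L l ψ ∧ localFraction N L l ψ ≤ 1 := by
  have hN0 : (0 : ℝ) < N := by exact_mod_cast hN
  have hφ := memLp_TT hL hψ
  have hs := parseval_sq hφ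
  rw [← norm_TT hL hψ.1, h1] at hs
  rw [localFraction_fourier hN hL hl hψ]
  simp_rw [fourierC_eq hL hψ.1]
  constructor
  · exact mul_nonneg (by positivity) (Finset.sum_nonneg fun i _ => tsum_nonneg fun k => by positivity)
  · have hi : ∀ i : Fin N, ∑' k : Fin N → Fin 3 → ℤ,
        ‖ek (fun α => (2 * Real.pi * l / L) * (k i α : ℝ))‖ ^ 2 * ‖fc (TT N L ψ) k‖ ^ 2 ≤ 1 := by
      intro i
      rw [← hs.tsum_eq]
      refine Summable.tsum_le_tsum (fun k => ?_) (corr_avg hL hφ i l).summable hs.summable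
      exact mul_le_of_le_one_left (sq_nonneg _) (pow_le_one₀ (norm_nonneg _) (ek_norm_le_one _))
    have h2 : ∑ i : Fin N, ∑' k : Fin N → Fin 3 → ℤ,
        ‖ek (fun α => (2 * Real.pi * l / L) * (k i α : ℝ))‖ ^ 2 * ‖fc (TT N L ψ) k‖ ^ 2 ≤ (N : ℝ) := by
      calc _ ≤ ∑ _i : Fin N, (1 : ℝ) := Finset.sum_le_sum fun i _ => hi i
        _ = N := by simp
    rw [one_div, inv_mul_le_iff₀ hN0, mul_one]
    exact h2

end Pool.Agent.Lib.MP_4952d6_mp.LW
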