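import Pool.Agent.Lib.MP_4952d6_mp.Pt.T03

/-!
# Pt.T04: the depletion in a window

`winDep K`: average of `2 G3 (K (u' - u))` over `u, u'` in the unit cube; it tends to `8 / (3 √π)` as `K → ∞`
(Riemann-Lebesgue). A bound for the density matrix gives one for the local condensate fraction.
-/

set_option autoImplicit false
set_option linter.unusedSectionVars false
set_option linter.unusedVariables false
open MeasureTheory Function Filter Topology Set ComplexConjugate
open scoped ENNReal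

namespace Pool.Agent.Lib.MP_4952d6_mp.LW

open O

variable {N : ℕ} {L : ℝ}

/-- Depletion in a window of `K` healing lengths, over `√(ρ a³)`. -/
noncomputable def winDep (K : ℝ) : ℝ :=
  ∫ p : (Fin 3 → ℝ) × (Fin 3 → ℝ), 2 * G3 (K • (p.2 - p.1)) ∂(mu1.prod mu1)

lemma winDep_int (K : ℝ) : Integrable (fun p : (Fin 3 → ℝ) × (Fin 3 → ℝ) => 2 * G3 (K • (p.2 - p.1)))
    (mu1.prod mu1) := by
  have hc : Continuous fun p : (Fin 3 → ℝ) × (Fin 3 → ℝ) => 2 * G3 (K • (p.2 - p.1)) :=
    continuous_const.mul (G3_continuous.comp (by fun_prop))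
  refine (integrable_const (4:ℝ)).mono' hc.aestronglyMeasurable (Eventually.of_forall fun p => ?_)
  rw [Real.norm_of_nonneg (mul_nonneg zero_le_two (G3_nonneg _))]
  linarith [G3_le_two (K • (p.2 - p.1))]

lemma diag_null : ∀ᵐ p : (Fin 3 → ℝ) × (Fin 3 → ℝ) ∂(mu1.prod mu1), p.2 ≠ p.1 := by
  have hs : MeasurableSet {p : (Fin 3 → ℝ) × (Fin 3 → ℝ) | p.2 ≠ p.1} :=
    (isOpen_ne_fun continuous_snd continuous_fst).measurableSet
  refine (Measure.ae_prod_mem_iff_ae_ae_mem hs).2 (Eventually.of_forall fun x => ?_)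
  have hna : NullSingletonClass mu1 := by
    unfold mu1
    infer_instance
  exact (compl_mem_ae_iff (s := {x})).2 (measure_singleton x)

/-- **The depletion in large windows is the one of Lee, Huang and Yang.** -/
theorem winDep_tendsto : Tendsto winDep atTop (𝓝 (8 / (3 * Real.sqrt Real.pi))) := by
  have h := tendsto_integral_filter_of_dominated_convergence (l := (atTop : Filter ℝ))
    (μ := mu1.prod mu1)
    (F := fun (K : ℝ) (p : (Fin 3 → ℝ) × (Fin 3 → ℝ)) => 2 * G3 (K • (p.2 - p.1)))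
    (f := fun _ => 8 / (3 * Real.sqrt Real.pi)) (fun _ => (4:ℝ))
    (Eventually.of_forall fun K => (winDep_int K).1)
    (Eventually.of_forall fun K => Eventually.of_forall fun p => by
      rw [Real.norm_of_nonneg (mul_nonneg zero_le_two (G3_nonneg _))]
      linarith [G3_le_two (K • (p.2 - p.1))])
    (integrable_const _) (by
      filter_upwards [diag_null] with p hp
      rw [Metric.tendsto_atTop]
      intro ε hε
      obtain ⟨D₀, hD₀, hfar⟩ := G3_far (half_pos hε)
      have hz : p.2 - p.1 ≠ 0 := sub_ne_zero.2 hp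
      have hn : 0 < nr (p.2 - p.1) := by
        refine lt_of_le_of_ne (nr_nonneg _) fun h0 => hz ?_
        have h1 : nr (p.2 - p.1) ^ 2 = 0 := by rw [← h0]; norm_num
        rw [nr_sq] at h1
        funext α
        have h2 := (Finset.sum_eq_zero_iff_of_nonneg (fun α _ => sq_nonneg _)).1 h1 α
          (Finset.mem_univ α)
        simpa using h2
      refine ⟨D₀ / nr (p.2 - p.1), fun K hK => ?_⟩
      have hK0 : 0 ≤ K := (div_nonneg hD₀.le hn.le).trans hK
      have h3 : D₀ ≤ nr (K • (p.2 - p.1)) := by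
        rw [nr_smul hK0]
        exact (div_le_iff₀ hn).1 hK
      rw [Real.dist_eq]
      exact (hfar _ h3).trans_lt (by linarith))
  have e2 : ∫ _p : (Fin 3 → ℝ) × (Fin 3 → ℝ), 8 / (3 * Real.sqrt Real.pi) ∂(mu1.prod mu1)
      = 8 / (3 * Real.sqrt Real.pi) := by simp
  rw [e2] at h
  exact h

/-- From the density matrix to the local condensate fraction. -/
theorem loc_of_gamma (hN : 1 ≤ N) (hL : 0 < L) {l s Z B C : ℝ} (hl : 0 < l) (hB : 0 ≤ B) (hC : 0 ≤ C)
    {ψ : (Fin N → Fin 3 → ℝ) → ℂ} (hψ : MemLp ψ 2 (volume.restrict (box N L)))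
    (h : ∀ y : Fin 3 → ℝ, |densityMatrix N L ψ y - (1 - 2 * G3 (s • y) * Z)|
      ≤ B * (1 + C * ∑ α, y α ^ 2)) :
    |1 - localFraction N L l ψ - winDep (s * l) * Z| ≤ B * (1 + C * (3 * l ^ 2)) := by
  have hg := gamma_integrable (l := l) hL hψ
  have hw := (winDep_int (s * l)).mul_const Z
  have e : 1 - localFraction N L l ψ - winDep (s * l) * Z
      = -∫ p : (Fin 3 → ℝ) × (Fin 3 → ℝ), (densityMatrix N L ψ (l • p.2 - l • p.1)
        - (1 - 2 * G3 ((s * l) • (p.2 - p.1)) * Z)) ∂(mu1.prod mu1) := by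
    have hw1 : Integrable (fun p : (Fin 3 → ℝ) × (Fin 3 → ℝ) =>
        1 - 2 * G3 ((s * l) • (p.2 - p.1)) * Z) (mu1.prod mu1) := (integrable_const (1:ℝ)).sub hw
    have h1 : ∫ _p : (Fin 3 → ℝ) × (Fin 3 → ℝ), (1:ℝ) ∂(mu1.prod mu1) = 1 := by simp
    rw [localFraction_gamma hN hL hl hψ, integral_sub hg hw1,
      integral_sub (integrable_const (1:ℝ)) hw, integral_mul_const, h1]
    unfold winDep
    ring
  rw [e, abs_neg]
  have hbd : ∀ᵐ p : (Fin 3 → ℝ) × (Fin 3 → ℝ) ∂(mu1.prod mu1),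
      ‖densityMatrix N L ψ (l • p.2 - l • p.1) - (1 - 2 * G3 ((s * l) • (p.2 - p.1)) * Z)‖
        ≤ B * (1 + C * (3 * l ^ 2)) := by
    have hs : MeasurableSet (win 1 ×ˢ win 1) := by
      rw [win_eq]
      exact (MeasurableSet.univ_pi fun _ => measurableSet_Ico).prod
        (MeasurableSet.univ_pi fun _ => measurableSet_Ico)
    have hmem : ∀ᵐ p : (Fin 3 → ℝ) × (Fin 3 → ℝ) ∂(mu1.prod mu1), p ∈ win 1 ×ˢ win 1 := by
      unfold mu1
      rw [Measure.prod_restrict]
      exact ae_restrict_mem hs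
    filter_upwards [hmem] with p hp
    have h1 := h (l • p.2 - l • p.1)
    have e1 : s • (l • p.2 - l • p.1) = (s * l) • (p.2 - p.1) := by
      rw [← smul_sub, smul_smul]
    rw [e1] at h1
    rw [Real.norm_eq_abs]
    refine h1.trans (mul_le_mul_of_nonneg_left ?_ hB)
    have h2 : ∑ α, (l • p.2 - l • p.1) α ^ 2 ≤ 3 * l ^ 2 := by
      have h3 : ∀ α, (l • p.2 - l • p.1) α ^ 2 ≤ l ^ 2 := by
        intro α
        simp only [Pi.sub_apply, Pi.smul_apply, smul_eq_mul]
        have h4 := hp.1 α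
        have h5 := hp.2 α
        have h6 : |p.2 α - p.1 α| ≤ 1 := by
          rw [abs_le]
          constructor <;> linarith [h4.1, h4.2, h5.1, h5.2]
        have h7 : (p.2 α - p.1 α) ^ 2 ≤ 1 := by
          rw [← sq_abs]
          exact pow_le_one₀ (abs_nonneg _) h6
        have h8 := mul_le_mul_of_nonneg_left h7 (sq_nonneg l)
        linarith
      calc ∑ α, (l • p.2 - l • p.1) α ^ 2 ≤ ∑ _α : Fin 3, l ^ 2 := Finset.sum_le_sum fun α _ => h3 α
        _ = 3 * l ^ 2 := by simp
    have h9 := mul_le_mul_of_nonneg_left h2 hC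
    linarith
  have h10 := norm_integral_le_of_norm_le_const hbd
  simpa using h10

end Pool.Agent.Lib.MP_4952d6_mp.LW
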