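import Pool.Agent.Lib.MP_4952d6_mp.Pt.T04
import Pool.Agent.Lib.MP_4952d6_mp.Pr.R32
import Pool.Agent.Lib.MP_4952d6_mp.Pr.R32b
import Pool.Agent.Lib.MP_4952d6_mp.Pr.R38
import Pool.Agent.Lib.MP_4952d6_mp.Pr.R39

/-!
# Pt.T05: the local condensate fraction of all pure states

Two sides from the density matrix (`dm_full`, `loc_of_gamma`). The lower bound for the depletion, uniform in the window: for
windows of at most `K₁` healing lengths from the two sided one, for larger ones from the fraction of the momenta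
above `d √(ρ a)` (`thr_full`), `d` small, `FF 0 = 8 / (3 √π)`.
-/

set_option autoImplicit false
set_option linter.unusedSectionVars false
set_option linter.unusedVariables false
open MeasureTheory Function Filter Topology Set ComplexConjugate
open scoped ENNReal

namespace Pool.Agent.Lib.MP_4952d6_mp.LW

open LA O LB LG LK

private lemma T05_low {ε t x M F c w mom D Z : ℝ} (hε : 0 < ε) (ht0 : 0 ≤ t) (ht1 : t ≤ 1)
    (hte : t * (2 + ε) ≤ ε / 8) (hx : 0 ≤ x) (hM : 0 ≤ M) (hZ : 0 ≤ Z) (hF2 : F ≤ 2)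
    (hFc : c - ε / 8 ≤ F) (hw : w ≤ c + ε / 8) (hmom : |mom - F * Z| ≤ (ε / 8 + M * x) * Z)
    (hD : (1 - t) * mom ≤ D) : (w - (ε + 2 * M * x)) * Z ≤ D := by
  obtain ⟨h1, h2⟩ := abs_le.1 hmom
  have h3 : t * mom ≤ t * ((F + ε / 8 + M * x) * Z) :=
    mul_le_mul_of_nonneg_left (by linarith) ht0
  have hMx : 0 ≤ M * x := mul_nonneg hM hx
  have h4 : t * ((F + ε / 8 + M * x) * Z) ≤ (ε / 8 + M * x) * Z := by
    have h5 : t * (F + ε / 8 + M * x) ≤ ε / 8 + M * x := by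
      have h6 : t * (F + ε / 8) ≤ t * (2 + ε) := mul_le_mul_of_nonneg_left (by linarith) ht0
      have h7 : t * (M * x) ≤ 1 * (M * x) := mul_le_mul_of_nonneg_right ht1 hMx
      linarith
    have h8 := mul_le_mul_of_nonneg_right h5 hZ
    linarith
  have h9 : (w - (ε + 2 * M * x)) * Z ≤ (F - ε / 8 - M * x - (ε / 8 + M * x)) * Z :=
    mul_le_mul_of_nonneg_right (by linarith) hZ
  linarith

/-- **The local condensate fraction, all pure states.** -/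
theorem loc_full {m R₀ R : ℝ} {v : (Fin 3 → ℝ) → ℝ} (h : Phys m R₀ R v) {a : ℝ}
    (ha : a = scatLen m R₀ v) {ε : ℝ} (hε : 0 < ε) :
    ∃ M : ℝ, 0 < M ∧ Dilute fun ρ N => ∀ x : ℝ, 0 ≤ x → ∀ ψ,
      IsNear m R₀ (x * (N * (ρ * a / m) * Real.sqrt (ρ * a ^ 3))) v N (side ρ N) ψ →
      ∀ l : ℝ, 0 < l →
        |1 - localFraction N (side ρ N) l ψ - winDep (Real.sqrt (ρ * a) * l) * Real.sqrt (ρ * a ^ 3)|
          ≤ (ε + M * x) * (1 + ρ * a * l ^ 2) * Real.sqrt (ρ * a ^ 3) ∧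
        (winDep (Real.sqrt (ρ * a) * l) - (ε + M * x)) * Real.sqrt (ρ * a ^ 3)
          ≤ 1 - localFraction N (side ρ N) l ψ := by
  have hapos : 0 < a := by
    rw [ha]
    exact P23_a h
  -- the large windows
  obtain ⟨d, hd0, hd⟩ : ∃ d : ℝ, 0 < d ∧ 8 / (3 * Real.sqrt Real.pi) - ε / 8 ≤ FF d := by
    have h1 := FF_continuous.tendsto 0
    rw [FF_zero] at h1
    have h2 : ∀ᶠ d in 𝓝 (0:ℝ), 8 / (3 * Real.sqrt Real.pi) - ε / 8 < FF d :=
      h1.eventually_const_lt (by linarith)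
    have h3 : ∀ᶠ d in 𝓝[>] (0:ℝ), 8 / (3 * Real.sqrt Real.pi) - ε / 8 < FF d :=
      h2.filter_mono nhdsWithin_le_nhds
    obtain ⟨d, hd, hd1⟩ := (h3.and self_mem_nhdsWithin).exists
    exact ⟨d, hd1, hd.le⟩
  obtain ⟨K₁, hK₁, hK2, hK3⟩ : ∃ K₁ : ℝ, 0 < K₁ ∧
      (∀ K : ℝ, K₁ ≤ K → winDep K ≤ 8 / (3 * Real.sqrt Real.pi) + ε / 8) ∧
      (∀ K : ℝ, K₁ ≤ K → 12 / (d * K) ^ 2 ≤ 1 ∧ 12 / (d * K) ^ 2 * (2 + ε) ≤ ε / 8) := by
    have h1 : ∀ᶠ K in atTop, winDep K < 8 / (3 * Real.sqrt Real.pi) + ε / 8 :=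
      winDep_tendsto.eventually_lt_const (by linarith)
    have h2 : Tendsto (fun K : ℝ => 12 / (d * K) ^ 2) atTop (𝓝 0) := by
      refine Tendsto.div_atTop tendsto_const_nhds ?_
      exact (tendsto_pow_atTop two_ne_zero).comp (tendsto_id.const_mul_atTop hd0)
    have h3 : ∀ᶠ K : ℝ in atTop, 12 / (d * K) ^ 2 < min 1 (ε / 8 / (2 + ε)) :=
      h2.eventually_lt_const (by positivity)
    obtain ⟨K₁, hK⟩ := eventually_atTop.1 ((h1.and h3).and (eventually_gt_atTop 0))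
    refine ⟨K₁, (hK K₁ le_rfl).2, fun K hKK => (hK K hKK).1.1.le, fun K hKK => ?_⟩
    have h4 := (hK K hKK).1.2
    refine ⟨(h4.trans_le (min_le_left _ _)).le, ?_⟩
    have h5 := (h4.trans_le (min_le_right _ _)).le
    rwa [le_div_iff₀ (by positivity)] at h5
  obtain ⟨ε₂, hε₂, hε₂'⟩ : ∃ ε₂ : ℝ, 0 < ε₂ ∧ ε₂ * (3 * (1 + K₁ ^ 2)) = ε := by
    refine ⟨ε / (3 * (1 + K₁ ^ 2)), by positivity, ?_⟩
    field_simp
  obtain ⟨M₁, hM₁, h1⟩ := dm_full h ha hε₂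
  obtain ⟨M₂, hM₂, h2⟩ := thr_full h ha hd0 (ε := ε / 8) (by linarith)
  refine ⟨M₁ * (3 * (1 + K₁ ^ 2)) + 2 * M₂, by positivity,
    ((h1.and h2).and (near_abs h ha one_pos)).mono ?_⟩
  rintro ρ N hρ ⟨⟨k1, k2⟩, hN, hL, -⟩ x hx ψ hψ l hl
  have hA := hψ.1
  obtain ⟨Z, hZ⟩ : ∃ Z, Z = Real.sqrt (ρ * a ^ 3) := ⟨_, rfl⟩
  have hZ0 : 0 ≤ Z := by
    rw [hZ]
    exact Real.sqrt_nonneg _
  have hs2 : Real.sqrt (ρ * a) ^ 2 = ρ * a := Real.sq_sqrt (by positivity)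
  obtain ⟨s, hs⟩ : ∃ s, s = Real.sqrt (ρ * a) := ⟨_, rfl⟩
  have hs0 : 0 < s := by
    rw [hs]
    exact Real.sqrt_pos.2 (by positivity)
  rw [← hs] at hs2
  have hB : 0 ≤ (ε₂ + M₁ * x) * Z := by positivity
  have hE1 : |1 - localFraction N (side ρ N) l ψ - winDep (s * l) * Z|
      ≤ (ε₂ + M₁ * x) * Z * (1 + ρ * a * (3 * l ^ 2)) := by
    refine loc_of_gamma hN hL hl hB (by positivity) hA.1 fun y => ?_
    have h3 := k1 x hx ψ hψ y
    rw [← hZ, ← hs] at h3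
    refine h3.trans (le_of_eq ?_)
    ring
  have hK0 : 0 ≤ K₁ ^ 2 := sq_nonneg _
  have hX0 : 0 ≤ ρ * a * l ^ 2 := by positivity
  have hMx : 0 ≤ M₁ * x := by positivity
  have hMx2 : 0 ≤ M₂ * x := by positivity
  have hcmp : 3 * (ε₂ + M₁ * x) ≤ ε + (M₁ * (3 * (1 + K₁ ^ 2)) + 2 * M₂) * x := by
    have h4 : 0 ≤ ε₂ * K₁ ^ 2 := by positivity
    have h5 : 0 ≤ M₁ * x * K₁ ^ 2 := by positivity
    linarith
  rw [← hZ, ← hs]
  refine ⟨?_, ?_⟩
  · refine hE1.trans ?_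
    have h6 : (ε₂ + M₁ * x) * Z * (1 + ρ * a * (3 * l ^ 2))
        ≤ 3 * (ε₂ + M₁ * x) * ((1 + ρ * a * l ^ 2) * Z) := by
      have h7 : (1 + ρ * a * (3 * l ^ 2)) ≤ 3 * (1 + ρ * a * l ^ 2) := by linarith
      have h8 := mul_le_mul_of_nonneg_left h7 hB
      linarith
    have h9 : 0 ≤ (1 + ρ * a * l ^ 2) * Z := by positivity
    have h10 := mul_le_mul_of_nonneg_right hcmp h9
    linarith
  · rcases le_total (s * l) K₁ with hKl | hKl
    · have h6 : ρ * a * (3 * l ^ 2) ≤ 3 * K₁ ^ 2 := by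
        have h7 : (s * l) ^ 2 ≤ K₁ ^ 2 := pow_le_pow_left₀ (by positivity) hKl 2
        rw [mul_pow, hs2] at h7
        linarith
      have h8 : (ε₂ + M₁ * x) * Z * (1 + ρ * a * (3 * l ^ 2))
          ≤ (ε₂ + M₁ * x) * Z * (3 * (1 + K₁ ^ 2)) :=
        mul_le_mul_of_nonneg_left (by linarith) hB
      have h9 := (abs_le.1 (hE1.trans h8)).1
      have h10 : (ε₂ + M₁ * x) * Z * (3 * (1 + K₁ ^ 2)) = (ε + M₁ * (3 * (1 + K₁ ^ 2)) * x) * Z := by
        rw [← hε₂']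
        ring
      rw [h10] at h9
      have h11 : 0 ≤ M₂ * x * Z := by positivity
      linarith
    · have h6 := (k2 x hx ψ hψ).1 d le_rfl
      rw [← hZ, ← hs] at h6
      have h7 := localFraction_low hN hL hl (κ := d * s) (by positivity) hA.1 hA.2.1
      have e : d * s * l = d * (s * l) := by ring
      rw [e] at h7
      obtain ⟨h8, h9⟩ := hK3 (s * l) hKl
      have h10 := T05_low hε (by positivity) h8 h9 hx hM₂.le hZ0 (F4_FF_le_two hd0.le) hd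
        (hK2 (s * l) hKl) h6 h7
      have h11 : 0 ≤ M₁ * (3 * (1 + K₁ ^ 2)) * x * Z := by positivity
      linarith

end Pool.Agent.Lib.MP_4952d6_mp.LW
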