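import Pool.Agent.Lib.MP_4952d6_mp.Pt.T05
import Pool.Agent.Lib.MP_4952d6_mp.Pq.P25

/-!
# Pt.T06: the diagonal form

`loc_full` for `ε = 1 / ((n + 2) (1 + (n + 1)²))` gives thresholds `rₙ`; `κ ρ` is the first number `m` such that `ρ < rⱼ` or
`ρ < 1 / (j + 1)` fails for some `j ≤ m` (`P25_M`, Pq/P25).
-/

set_option autoImplicit false
set_option linter.unusedSectionVars false
set_option linter.unusedVariables false
open MeasureTheory Function Filter Topology Set ComplexConjugate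
open scoped ENNReal

namespace Pool.Agent.Lib.MP_4952d6_mp.LW

open LA O LB LG LK

/-- **The law of Lee, Huang and Yang in windows.** -/
theorem loc_diag {m R₀ R : ℝ} {v : (Fin 3 → ℝ) → ℝ} (h : Phys m R₀ R v) {a : ℝ}
    (ha : a = scatLen m R₀ v) :
    ∃ κ : ℝ → ℝ, Tendsto κ (𝓝[>] 0) atTop ∧ ∀ ε : ℝ, 0 < ε → ∃ K₀ : ℝ, 0 < K₀ ∧
      Dilute fun ρ N => ∀ ψ, IsNear m R₀ 0 v N (side ρ N) ψ →
      ∀ l : ℝ, 0 < l → K₀ ≤ Real.sqrt (ρ * a) * l →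
        (8 / (3 * Real.sqrt Real.pi) - ε) * Real.sqrt (ρ * a ^ 3)
            ≤ 1 - localFraction N (side ρ N) l ψ ∧
        (Real.sqrt (ρ * a) * l ≤ κ ρ → 1 - localFraction N (side ρ N) l ψ
            ≤ (8 / (3 * Real.sqrt Real.pi) + ε) * Real.sqrt (ρ * a ^ 3)) := by
  have hapos : 0 < a := by
    rw [ha]
    exact P23_a h
  have he : ∀ n : ℕ, 0 < 1 / (((n : ℝ) + 2) * (1 + ((n : ℝ) + 1) ^ 2)) := fun n => by positivity
  choose M hM hlaw using fun n : ℕ => loc_full h ha (he n)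
  choose r hr hrr using hlaw
  have key : ∀ n : ℕ, ∃ δ : ℝ, 0 < δ ∧ ∀ ρ, 0 < ρ → ρ < δ → ∃ k, P25_M r ρ = k + 1 ∧ n ≤ k := by
    intro n
    obtain ⟨δ, hδ, hδP⟩ := P25_small hr n
    refine ⟨δ, hδ, fun ρ hρ hlt => ⟨P25_M r ρ - 1, ?_, ?_⟩⟩ <;>
    · have h1 := P25_above r hρ (hδP ρ hlt)
      omega
  have hle : ∀ n k : ℕ, n ≤ k → 1 / ((k : ℝ) + 2) ≤ 1 / ((n : ℝ) + 1) := fun n k hnk => by
    refine one_div_le_one_div_of_le (by positivity) ?_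
    have : (n : ℝ) ≤ k := by exact_mod_cast hnk
    linarith
  refine ⟨fun ρ => (P25_M r ρ : ℝ), ?_, fun ε hε => ?_⟩
  · rw [tendsto_atTop]
    intro b
    obtain ⟨n, hn⟩ := exists_nat_ge b
    obtain ⟨δ, hδ, hk⟩ := key n
    filter_upwards [Ioo_mem_nhdsGT hδ] with ρ hρ
    obtain ⟨k, hM', hnk⟩ := hk ρ hρ.1 hρ.2
    rw [hM']
    have h1 : (n : ℝ) ≤ k := by exact_mod_cast hnk
    push_cast
    linarith
  · obtain ⟨K₀, hK₀, hK⟩ : ∃ K₀ : ℝ, 0 < K₀ ∧ ∀ K, K₀ ≤ K →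
        |winDep K - 8 / (3 * Real.sqrt Real.pi)| < ε / 2 := by
      have h1 := Metric.tendsto_atTop.1 winDep_tendsto (ε / 2) (by linarith)
      obtain ⟨K₁, h2⟩ := h1
      refine ⟨max K₁ 1, lt_max_of_lt_right one_pos, fun K hK => ?_⟩
      have h3 := h2 K ((le_max_left _ _).trans hK)
      rwa [Real.dist_eq] at h3
    obtain ⟨n, hn⟩ := exists_nat_one_div_lt (half_pos hε)
    obtain ⟨δ, hδ, hk⟩ := key n
    refine ⟨K₀, hK₀, δ, hδ, fun ρ hρ hlt => ?_⟩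
    obtain ⟨k, hMk, hnk⟩ := hk ρ hρ hlt
    have h2 : P25_P r ρ k := P25_below r (by omega)
    obtain ⟨N₁, hN₁⟩ := hrr k ρ hρ (h2 k le_rfl).1
    refine ⟨N₁, fun N hN ψ hψ l hl hlK => ?_⟩
    have hψ' : IsNear m R₀ (0 * (N * (ρ * a / m) * Real.sqrt (ρ * a ^ 3))) v N (side ρ N) ψ := by
      rw [zero_mul]
      exact hψ
    obtain ⟨h3, h4⟩ := hN₁ N hN 0 le_rfl ψ hψ' l hl
    have hk1 : 1 / ((k : ℝ) + 2) ≤ ε / 2 := (hle n k hnk).trans hn.le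
    have hk0 : (0 : ℝ) ≤ k := Nat.cast_nonneg k
    obtain ⟨Z, hZ⟩ : ∃ Z, Z = Real.sqrt (ρ * a ^ 3) := ⟨_, rfl⟩
    have hZ0 : 0 ≤ Z := by
      rw [hZ]
      exact Real.sqrt_nonneg _
    have hs2 : Real.sqrt (ρ * a) ^ 2 = ρ * a := Real.sq_sqrt (by positivity)
    obtain ⟨w, hw⟩ : ∃ w, w = winDep (Real.sqrt (ρ * a) * l) := ⟨_, rfl⟩
    have hwK := hK _ hlK
    rw [← hw] at hwK h3 h4
    rw [← hZ] at h3 h4 ⊢
    obtain ⟨hw1, hw2⟩ := abs_lt.1 hwK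
    rw [mul_zero, add_zero] at h3 h4
    have hprod : 1 / (((k : ℝ) + 2) * (1 + ((k : ℝ) + 1) ^ 2)) * (1 + ((k : ℝ) + 1) ^ 2)
        = 1 / ((k : ℝ) + 2) := by
      field_simp
    have hek : 1 / (((k : ℝ) + 2) * (1 + ((k : ℝ) + 1) ^ 2)) ≤ ε / 2 := by
      refine le_trans ?_ hk1
      rw [← hprod]
      refine le_mul_of_one_le_right (he k).le ?_
      have := sq_nonneg ((k : ℝ) + 1)
      linarith
    refine ⟨?_, fun hlκ => ?_⟩
    · refine le_trans ?_ h4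
      exact mul_le_mul_of_nonneg_right (by linarith) hZ0
    · have hlκ : Real.sqrt (ρ * a) * l ≤ (P25_M r ρ : ℝ) := hlκ
      rw [hMk] at hlκ
      push_cast at hlκ
      have h5 : ρ * a * l ^ 2 ≤ ((k : ℝ) + 1) ^ 2 := by
        have h6 : (Real.sqrt (ρ * a) * l) ^ 2 ≤ ((k : ℝ) + 1) ^ 2 :=
          pow_le_pow_left₀ (by positivity) hlκ 2
        rw [mul_pow, hs2] at h6
        exact h6
      have h7 : 1 / (((k : ℝ) + 2) * (1 + ((k : ℝ) + 1) ^ 2)) * (1 + ρ * a * l ^ 2) ≤ ε / 2 := by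
        refine le_trans ?_ hk1
        rw [← hprod]
        exact mul_le_mul_of_nonneg_left (by linarith) (he k).le
      have h8 := mul_le_mul_of_nonneg_right h7 hZ0
      have h9 := (abs_le.1 h3).2
      have h10 : w * Z ≤ (8 / (3 * Real.sqrt Real.pi) + ε / 2) * Z :=
        mul_le_mul_of_nonneg_right (by linarith) hZ0
      linarith

end Pool.Agent.Lib.MP_4952d6_mp.LW
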